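import Mathlib
import Pool.Agent.H38.MycDefs
import Pool.Agent.H38.MycBase

/-!
The bound `λ(M^t(G)) ≤ (2^t - 1)(n + 1) + Δ²` holds for every finite graph `G` of order `n ≥ 1` and
maximum degree `Δ`, and every `t ≥ 1`.
-/

namespace Pool.Agent.Results.MP_f0917b_co.IteratedMycielski

open Pool.Agent.H38.Myc

universe u

/-- For every finite graph `G` of order `n ≥ 1` and maximum degree `Δ` and every `t ≥ 1`, the
`L(2,1)`-labeling number of the `t`-th iterated Mycielski graph of `G` is at most
`(2^t - 1)(n + 1) + Δ²`. -/
theorem result {V : Type u} [Fintype V] [Nonempty V] (G : SimpleGraph V) [DecidableRel G.Adj]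
    (t : ℕ) (ht : 1 ≤ t) :
    lambda21 (iterMyc G t) ≤ (2 ^ t - 1) * (Fintype.card V + 1) + G.maxDegree ^ 2 := by
  classical
  apply lambda21_le
  rw [← Nat.card_eq_fintype_card]
  apply has_iter G _ _ t ht
  rw [Nat.card_eq_fintype_card]
  have hnb : ∀ v, nb G v = G.neighborFinset v := by
    intro v
    ext y
    rw [mem_nb, SimpleGraph.mem_neighborFinset]
  have hD : ∀ v, (nb G v).card ≤ G.maxDegree := by
    intro v
    rw [hnb]
    exact G.degree_le_maxDegree v
  obtain ⟨D, hDD⟩ : ∃ D, D = G.maxDegree := ⟨_, rfl⟩
  rw [← hDD] at hD ⊢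
  rcases Nat.lt_or_ge D 2 with h2 | h2
  · have hone : ∀ x y z, G.Adj x y → G.Adj x z → y = z := by
      intro x y z hy hz
      exact Finset.card_le_one.mp ((hD x).trans (by omega)) y ((mem_nb G _ _).mpr hy) z
        ((mem_nb G _ _).mpr hz)
    rcases Nat.lt_or_ge D 1 with h1 | h1
    · have hD0 : D = 0 := by omega
      subst hD0
      have hno : ∀ x y, ¬ G.Adj x y := by
        intro x y hxy
        have := hD x
        rw [Nat.le_zero, Finset.card_eq_zero] at this
        have h3 := (mem_nb G x y).mpr hxy
        rw [this] at h3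
        simp at h3
      have h0 : Has G 0 := by
        refine ⟨fun _ => 0, ⟨?_, ?_⟩, by simp⟩
        · intro x y hxy; exact absurd hxy (hno x y)
        · intro x y z _ hxz _; exact absurd hxz (hno x z)
      have := has_step h0
      rw [Nat.card_eq_fintype_card] at this
      simpa using this
    · have hD1 : D = 1 := by omega
      subst hD1
      exact base_one G hone
  · apply base_general G D hD h2
    obtain ⟨v, hv⟩ := G.exists_maximal_degree_vertex
    rw [← hDD] at hv
    have hlt := G.degree_lt_card_verts v
    rw [← hv] at hlt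
    omega

end Pool.Agent.Results.MP_f0917b_co.IteratedMycielski
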